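import Pool.Agent.Helper83.Er.X4a
import Pool.Agent.Helper83.Lr.LR3
import Pool.Agent.Helper72.Ip.PW1

/-!
# ER package X4
-/

set_option autoImplicit false
set_option linter.unusedSectionVars false
open MeasureTheory Filter Topology ProbabilityTheory
open scoped ContDiff ENNReal InnerProductSpace

namespace Pool.Agent.Helper83.Er

open Pool.Agent.N661.BR (MW J0 IsStationary shift meas_eval meas_shift IsGaussianLaw lin meas_lin
  IsErgodic cov parallel)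
open Pool.Agent.Helper37.BC
open Pool.Agent.Helper26.Ip
open Pool.Agent.Helper26.Lr
open Pool.Agent.Helper26.Er
open Pool.Agent.Helper43.Er (gw_int gw_nonneg)
open Pool.Agent.Helper83.Lr (norm_V inner_eq)
open Pool.Agent.Helper72.Ip (cont_Vg)
open Complex (I)

noncomputable section

variable {μ : Measure MW} [IsProbabilityMeasure μ]

/-- the weighted square -/
def JJ (hs : IsStationary μ) (h2 : Integrable (fun f : MW => f 0 ^ 2) μ) (c : Lp ℝ 2 μ) (t : ℝ) : ℝ :=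
  ∫ z : ℂ, gw z * ⟪c, V hs h2 ((t : ℂ) * z)⟫_ℝ ^ 2

lemma inner_le (hs : IsStationary μ) (h2 : Integrable (fun f : MW => f 0 ^ 2) μ) (c : Lp ℝ 2 μ)
    (x : ℂ) : ⟪c, V hs h2 x⟫_ℝ ^ 2 ≤ ‖c‖ ^ 2 * ‖V hs h2 0‖ ^ 2 := by
  have h := abs_real_inner_le_norm c (V hs h2 x)
  rw [norm_V hs h2 x] at h
  rw [← sq_abs, ← mul_pow]
  exact pow_le_pow_left₀ (abs_nonneg _) h 2

lemma int_cont (hs : IsStationary μ) (h2 : Integrable (fun f : MW => f 0 ^ 2) μ) (c : Lp ℝ 2 μ)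
    (t : ℝ) : Continuous fun z : ℂ => ⟪c, V hs h2 ((t : ℂ) * z)⟫_ℝ := by
  have h := (cont_Vg hs h2 c).comp (continuous_const.mul continuous_id :
    Continuous fun z : ℂ => (t : ℂ) * z)
  refine h.congr fun z => ?_
  exact real_inner_comm _ _

lemma int_JJ (hs : IsStationary μ) (h2 : Integrable (fun f : MW => f 0 ^ 2) μ) (c : Lp ℝ 2 μ)
    (t : ℝ) : Integrable fun z : ℂ => gw z * ⟪c, V hs h2 ((t : ℂ) * z)⟫_ℝ ^ 2 := by
  refine Integrable.mono' (gw_int.1.mul_const (‖c‖ ^ 2 * ‖V hs h2 0‖ ^ 2))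
    (gw_cont.mul ((int_cont hs h2 c t).pow 2)).aestronglyMeasurable
    (Eventually.of_forall fun z => ?_)
  rw [Real.norm_eq_abs, abs_of_nonneg (mul_nonneg (gw_nonneg z) (sq_nonneg _))]
  exact mul_le_mul_of_nonneg_left (inner_le hs h2 c _) (gw_nonneg z)

lemma JJ_nonneg (hs : IsStationary μ) (h2 : Integrable (fun f : MW => f 0 ^ 2) μ) (c : Lp ℝ 2 μ)
    (t : ℝ) : 0 ≤ JJ hs h2 c t :=
  integral_nonneg fun z => mul_nonneg (gw_nonneg z) (sq_nonneg _)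

lemma JJ_le (hs : IsStationary μ) (h2 : Integrable (fun f : MW => f 0 ^ 2) μ) (c : Lp ℝ 2 μ)
    (t : ℝ) : JJ hs h2 c t ≤ ‖c‖ ^ 2 * ‖V hs h2 0‖ ^ 2 := by
  have h : JJ hs h2 c t ≤ ∫ z : ℂ, gw z * (‖c‖ ^ 2 * ‖V hs h2 0‖ ^ 2) :=
    integral_mono (int_JJ hs h2 c t) (gw_int.1.mul_const _) fun z =>
      mul_le_mul_of_nonneg_left (inner_le hs h2 c _) (gw_nonneg z)
  rwa [integral_mul_const, gw_int.2, one_mul] at h

lemma JJ_add (hs : IsStationary μ) (h2 : Integrable (fun f : MW => f 0 ^ 2) μ) (c c' : Lp ℝ 2 μ)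
    (t : ℝ) : JJ hs h2 (c + c') t ≤ 2 * JJ hs h2 c t + 2 * JJ hs h2 c' t := by
  unfold JJ
  rw [← integral_const_mul, ← integral_const_mul, ← integral_add ((int_JJ hs h2 c t).const_mul 2)
    ((int_JJ hs h2 c' t).const_mul 2)]
  refine integral_mono (int_JJ hs h2 _ t) (((int_JJ hs h2 c t).const_mul 2).add
    ((int_JJ hs h2 c' t).const_mul 2)) fun z => ?_
  show gw z * ⟪c + c', V hs h2 ((t : ℂ) * z)⟫_ℝ ^ 2 ≤
    2 * (gw z * ⟪c, V hs h2 ((t : ℂ) * z)⟫_ℝ ^ 2) + 2 * (gw z * ⟪c', V hs h2 ((t : ℂ) * z)⟫_ℝ ^ 2)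
  rw [inner_add_left]
  have h := gw_nonneg z
  have h3 : (⟪c, V hs h2 ((t : ℂ) * z)⟫_ℝ + ⟪c', V hs h2 ((t : ℂ) * z)⟫_ℝ) ^ 2 ≤
      2 * ⟪c, V hs h2 ((t : ℂ) * z)⟫_ℝ ^ 2 + 2 * ⟪c', V hs h2 ((t : ℂ) * z)⟫_ℝ ^ 2 := by
    nlinarith [sq_nonneg (⟪c, V hs h2 ((t : ℂ) * z)⟫_ℝ - ⟪c', V hs h2 ((t : ℂ) * z)⟫_ℝ)]
  have h4 := mul_le_mul_of_nonneg_left h3 h
  linarith

lemma JJ_smul (hs : IsStationary μ) (h2 : Integrable (fun f : MW => f 0 ^ 2) μ) (c : Lp ℝ 2 μ)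
    (s t : ℝ) : JJ hs h2 (s • c) t = s ^ 2 * JJ hs h2 c t := by
  unfold JJ
  rw [← integral_const_mul]
  refine integral_congr_ae (Eventually.of_forall fun z => ?_)
  show gw z * ⟪s • c, V hs h2 ((t : ℂ) * z)⟫_ℝ ^ 2 = s ^ 2 * (gw z * ⟪c, V hs h2 ((t : ℂ) * z)⟫_ℝ ^ 2)
  rw [real_inner_smul_left]
  ring

lemma inner_VV (hs : IsStationary μ) (h2 : Integrable (fun f : MW => f 0 ^ 2) μ) (w x : ℂ) :
    ⟪V hs h2 w, V hs h2 x⟫_ℝ = ∫ f : MW, f w * f x ∂μ := by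
  rw [inner_eq]
  refine integral_congr_ae ?_
  filter_upwards [V_coe hs h2 w, V_coe hs h2 x] with f h3 h4
  rw [h3, h4]

/-- X4: Wiener -/
theorem avg_cov (hs : IsStationary μ) (h2 : Integrable (fun f : MW => f 0 ^ 2) μ) {m : ℝ}
    {ν : Measure ℝ} [IsProbabilityMeasure ν]
    (hcov : ∀ w w' : ℂ, ∫ f : MW, f w * f w' ∂μ = m * cov ν (w - w')) (hp : parallel ν = 0)
    {c : Lp ℝ 2 μ} (hc : c ∈ values μ) :
    Tendsto (fun t : ℝ => ∫ z : ℂ, gw z * ⟪c, V hs h2 ((t : ℂ) * z)⟫_ℝ ^ 2) atTop (𝓝 0) := by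
  show Tendsto (JJ hs h2 c) atTop (𝓝 0)
  refine values_induction hs h2 (p := fun c => Tendsto (JJ hs h2 c) atTop (𝓝 0))
    ?_ ?_ ?_ ?_ ?_ hc
  · -- closed
    refine isClosed_of_closure_subset fun c hc => ?_
    show Tendsto (JJ hs h2 c) atTop (𝓝 0)
    rw [Metric.tendsto_nhds]
    intro η hη
    set B : ℝ := ‖V hs h2 0‖ ^ 2 with hB
    have hB0 : 0 ≤ B := sq_nonneg _
    obtain ⟨c', hc', hd⟩ := Metric.mem_closure_iff.1 hc (Real.sqrt (η / (4 * (B + 1))))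
      (Real.sqrt_pos.2 (by positivity))
    have hc'' : Tendsto (JJ hs h2 c') atTop (𝓝 0) := hc'
    filter_upwards [Metric.tendsto_nhds.1 hc'' (η / 4) (by positivity)] with t ht
    rw [Real.dist_eq, sub_zero, abs_of_nonneg (JJ_nonneg hs h2 c' t)] at ht
    rw [Real.dist_eq, sub_zero, abs_of_nonneg (JJ_nonneg hs h2 c t)]
    have h3 := JJ_add hs h2 c' (c - c') t
    rw [add_sub_cancel] at h3
    have h4 := JJ_le hs h2 (c - c') t
    have h5 : ‖c - c'‖ ^ 2 < η / (4 * (B + 1)) := by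
      rw [dist_eq_norm] at hd
      have := pow_lt_pow_left₀ hd (norm_nonneg _) two_ne_zero
      rwa [Real.sq_sqrt (by positivity)] at this
    have h6 : ‖c - c'‖ ^ 2 * B ≤ η / 4 := by
      calc ‖c - c'‖ ^ 2 * B ≤ (η / (4 * (B + 1))) * (B + 1) := by
            refine mul_le_mul h5.le (by linarith) hB0 (by positivity)
        _ = η / 4 := by field_simp
    linarith
  · -- values
    intro w
    have h := (wiener ν hp w).const_mul (m ^ 2)
    rw [mul_zero] at h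
    refine h.congr fun t => ?_
    unfold JJ
    rw [← integral_const_mul]
    refine integral_congr_ae (Eventually.of_forall fun z => ?_)
    show m ^ 2 * (gw z * cov ν (w - (t : ℂ) * z) ^ 2) = gw z * ⟪V hs h2 w, V hs h2 ((t : ℂ) * z)⟫_ℝ ^ 2
    rw [inner_VV, hcov]
    ring
  · have e : JJ hs h2 (0 : Lp ℝ 2 μ) = fun _ => 0 := by
      funext t
      have h := JJ_smul hs h2 (0 : Lp ℝ 2 μ) 0 t
      rw [zero_smul] at h
      rw [h]
      ring
    rw [e]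
    exact tendsto_const_nhds
  · intro a b ha hb
    refine squeeze_zero (JJ_nonneg hs h2 _) (JJ_add hs h2 a b) ?_
    have h := (ha.const_mul 2).add (hb.const_mul 2)
    simpa using h
  · intro s a ha
    have e : JJ hs h2 (s • a) = fun t => s ^ 2 * JJ hs h2 a t := funext fun t => JJ_smul hs h2 a s t
    show Tendsto (JJ hs h2 (s • a)) atTop (𝓝 0)
    rw [e]
    have h := ha.const_mul (s ^ 2)
    rwa [mul_zero] at h

end

end Pool.Agent.Helper83.Er
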