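import Pool.Agent.Helper43.Er.X12

/-!
# ER package X4: Wiener's lemma with a Gaussian weight
-/

set_option autoImplicit false
open MeasureTheory Filter Topology
open scoped ContDiff ENNReal InnerProductSpace FourierTransform

namespace Pool.Agent.Helper83.Er

open Pool.Agent.N661.BR (cov parallel)
open Pool.Agent.Helper26.Er Pool.Agent.Helper43.Er
open Complex (I)

noncomputable section

lemma gw_cont : Continuous gw := by
  unfold gw
  fun_prop

/-- Riemann-Lebesgue for the Gaussian weight -/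
theorem rl (ξ : ℂ) (hξ : ξ ≠ 0) (θ : ℝ) :
    Tendsto (fun t : ℝ => ∫ z : ℂ, gw z * Real.cos (θ - t * ⟪z, ξ⟫_ℝ)) atTop (𝓝 0) := by
  have h1 := tendsto_integral_exp_inner_smul_cocompact (fun z : ℂ => (gw z : ℂ))
  have h2 : Tendsto (fun t : ℝ => (t / (2 * Real.pi)) • ξ) atTop (cocompact ℂ) := by
    rw [← Metric.cobounded_eq_cocompact, ← tendsto_norm_atTop_iff_cobounded]
    have h3 : (fun t : ℝ => ‖(t / (2 * Real.pi)) • ξ‖) = fun t : ℝ =>
        |t| * (‖ξ‖ / (2 * Real.pi)) := by
      funext t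
      rw [norm_smul, Real.norm_eq_abs, abs_div, abs_of_pos (by positivity : (0 : ℝ) < 2 * Real.pi)]
      ring
    rw [h3]
    exact tendsto_abs_atTop_atTop.atTop_mul_const (div_pos (norm_pos_iff.2 hξ) (by positivity))
  have h3 := (h1.comp h2).const_mul (Complex.exp (θ * I))
  rw [mul_zero] at h3
  have h4 := (Complex.continuous_re.tendsto 0).comp h3
  rw [Complex.zero_re] at h4
  refine h4.congr fun t => ?_
  have hint : Integrable (fun z : ℂ => Complex.exp (θ * I) *
      (Real.fourierChar (-⟪z, (t / (2 * Real.pi)) • ξ⟫_ℝ) • (gw z : ℂ))) := by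
    refine Integrable.mono' gw_int.1 ?_ (Eventually.of_forall fun z => ?_)
    · have hc1 : Continuous fun z : ℂ => -⟪z, (t / (2 * Real.pi)) • ξ⟫_ℝ :=
        (continuous_id.inner continuous_const).neg
      have hc2 : Continuous fun z : ℂ => Real.fourierChar (-⟪z, (t / (2 * Real.pi)) • ξ⟫_ℝ) :=
        Real.continuous_fourierChar.comp hc1
      have hc3 : Continuous fun z : ℂ => (gw z : ℂ) := Complex.continuous_ofReal.comp gw_cont
      exact (continuous_const.mul (hc2.smul hc3)).aestronglyMeasurable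
    · rw [norm_mul, Circle.smul_def, norm_smul, Circle.norm_coe, one_mul, Complex.norm_real,
        Complex.norm_exp_ofReal_mul_I, one_mul, Real.norm_eq_abs, abs_of_nonneg (gw_nonneg z)]
  show (Complex.exp (θ * I) * ∫ z : ℂ,
    Real.fourierChar (-⟪z, (t / (2 * Real.pi)) • ξ⟫_ℝ) • (gw z : ℂ)).re = _
  rw [← integral_const_mul]
  have h5 := Complex.reCLM.integral_comp_comm hint
  have h6 : (∫ z : ℂ, Complex.exp (θ * I) *
      (Real.fourierChar (-⟪z, (t / (2 * Real.pi)) • ξ⟫_ℝ) • (gw z : ℂ))).re =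
      ∫ z : ℂ, (Complex.exp (θ * I) *
      (Real.fourierChar (-⟪z, (t / (2 * Real.pi)) • ξ⟫_ℝ) • (gw z : ℂ))).re := h5.symm
  rw [h6]
  refine integral_congr_ae (Eventually.of_forall fun z => ?_)
  show (Complex.exp (θ * I) *
      (Real.fourierChar (-⟪z, (t / (2 * Real.pi)) • ξ⟫_ℝ) • (gw z : ℂ))).re =
      gw z * Real.cos (θ - t * ⟪z, ξ⟫_ℝ)
  rw [Circle.smul_def, Real.fourierChar_apply, smul_eq_mul, ← mul_assoc, ← Complex.exp_add]
  have e1 : (θ : ℂ) * I + ((2 * Real.pi * -⟪z, (t / (2 * Real.pi)) • ξ⟫_ℝ : ℝ) : ℂ) * I =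
      ((θ - t * ⟪z, ξ⟫_ℝ : ℝ) : ℂ) * I := by
    rw [real_inner_smul_right]
    have : (2 * Real.pi * -(t / (2 * Real.pi) * ⟪z, ξ⟫_ℝ)) = -(t * ⟪z, ξ⟫_ℝ) := by
      field_simp
    rw [this]
    push_cast
    ring
  rw [e1, mul_comm, Complex.re_ofReal_mul, Complex.exp_ofReal_mul_I_re]

/-- the unit vector -/
def ev (α : ℝ) : ℂ := ⟨Real.cos α, Real.sin α⟩

/-- the phase -/
def ph (w : ℂ) (t : ℝ) (α : ℝ) (z : ℂ) : ℝ :=
  (w - (t : ℂ) * z).re * Real.cos α + (w - (t : ℂ) * z).im * Real.sin α

lemma ph_cont (w : ℂ) (t : ℝ) : Continuous fun p : ℝ × ℂ => ph w t p.1 p.2 := by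
  unfold ph
  fun_prop

lemma kk_tendsto (w : ℂ) {α β : ℝ} (h : Real.sin (α - β) ≠ 0) :
    Tendsto (fun t : ℝ => ∫ z : ℂ, gw z * (Real.cos (ph w t α z) * Real.cos (ph w t β z)))
      atTop (𝓝 0) := by
  have hm : ev α - ev β ≠ 0 := by
    intro h0
    apply h
    have h1 := congrArg Complex.re h0
    have h2 := congrArg Complex.im h0
    simp only [ev, Complex.sub_re, Complex.sub_im, Complex.zero_re, Complex.zero_im] at h1 h2
    rw [Real.sin_sub]
    have h3 : Real.cos α = Real.cos β := by linarith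
    have h4 : Real.sin α = Real.sin β := by linarith
    rw [h3, h4]
    ring
  have hp : ev α + ev β ≠ 0 := by
    intro h0
    apply h
    have h1 := congrArg Complex.re h0
    have h2 := congrArg Complex.im h0
    simp only [ev, Complex.add_re, Complex.add_im, Complex.zero_re, Complex.zero_im] at h1 h2
    rw [Real.sin_sub]
    have h3 : Real.cos α = -Real.cos β := by linarith
    have h4 : Real.sin α = -Real.sin β := by linarith
    rw [h3, h4]
    ring
  have h1 := rl _ hm (w.re * (ev α - ev β).re + w.im * (ev α - ev β).im)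
  have h2 := rl _ hp (w.re * (ev α + ev β).re + w.im * (ev α + ev β).im)
  have h3 := (h1.add h2).const_mul (1 / 2)
  rw [add_zero, mul_zero] at h3
  refine h3.congr fun t => ?_
  have hi : ∀ (ξ : ℂ) (θ : ℝ), Integrable (fun z : ℂ => gw z * Real.cos (θ - t * ⟪z, ξ⟫_ℝ)) := by
    intro ξ θ
    refine Integrable.mono' gw_int.1 ?_ (Eventually.of_forall fun z => ?_)
    · refine Continuous.aestronglyMeasurable (gw_cont.mul (Real.continuous_cos.comp ?_))
      exact continuous_const.sub (continuous_const.mul (continuous_id.inner continuous_const))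
    · rw [norm_mul, Real.norm_eq_abs, abs_of_nonneg (gw_nonneg z)]
      exact mul_le_of_le_one_right (gw_nonneg z) (Real.abs_cos_le_one _)
  rw [← integral_add (hi _ _) (hi _ _), ← integral_const_mul]
  refine integral_congr_ae (Eventually.of_forall fun z => ?_)
  show 1 / 2 * (gw z * Real.cos (w.re * (ev α - ev β).re + w.im * (ev α - ev β).im -
      t * ⟪z, ev α - ev β⟫_ℝ) + gw z * Real.cos (w.re * (ev α + ev β).re +
      w.im * (ev α + ev β).im - t * ⟪z, ev α + ev β⟫_ℝ)) = _
  have e1 : w.re * (ev α - ev β).re + w.im * (ev α - ev β).im - t * ⟪z, ev α - ev β⟫_ℝ =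
      ph w t α z - ph w t β z := by
    rw [Complex.inner]
    simp only [ph, ev, Complex.mul_re, Complex.conj_re, Complex.conj_im, Complex.sub_re,
      Complex.sub_im, Complex.mul_im, Complex.ofReal_re, Complex.ofReal_im]
    ring
  have e2 : w.re * (ev α + ev β).re + w.im * (ev α + ev β).im - t * ⟪z, ev α + ev β⟫_ℝ =
      ph w t α z + ph w t β z := by
    rw [Complex.inner]
    simp only [ph, ev, Complex.mul_re, Complex.conj_re, Complex.conj_im, Complex.add_re,
      Complex.add_im, Complex.sub_re, Complex.sub_im, Complex.mul_im, Complex.ofReal_re,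
      Complex.ofReal_im]
    ring
  rw [e1, e2, Real.cos_sub, Real.cos_add]
  ring

/-- Wiener -/
theorem wiener (ν : Measure ℝ) [IsProbabilityMeasure ν] (hp : parallel ν = 0) (w : ℂ) :
    Tendsto (fun t : ℝ => ∫ z : ℂ, gw z * cov ν (w - (t : ℂ) * z) ^ 2) atTop (𝓝 0) := by
  have hF : ∀ t : ℝ, Integrable (fun q : (ℝ × ℝ) × ℂ =>
      gw q.2 * (Real.cos (ph w t q.1.1 q.2) * Real.cos (ph w t q.1.2 q.2)))
      ((ν.prod ν).prod volume) := by
    intro t
    have h1 : Integrable (fun q : (ℝ × ℝ) × ℂ => gw q.2) ((ν.prod ν).prod volume) :=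
      gw_int.1.comp_snd (ν.prod ν)
    refine Integrable.mono' h1 ?_ (Eventually.of_forall fun q => ?_)
    · refine Continuous.aestronglyMeasurable ?_
      refine (gw_cont.comp continuous_snd).mul ((Real.continuous_cos.comp ?_).mul
        (Real.continuous_cos.comp ?_))
      · exact (ph_cont w t).comp ((continuous_fst.comp continuous_fst).prodMk continuous_snd)
      · exact (ph_cont w t).comp ((continuous_snd.comp continuous_fst).prodMk continuous_snd)
    · rw [norm_mul, Real.norm_eq_abs, abs_of_nonneg (gw_nonneg _)]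
      refine mul_le_of_le_one_right (gw_nonneg _) ?_
      rw [norm_mul]
      exact mul_le_one₀ (Real.abs_cos_le_one _) (norm_nonneg _) (Real.abs_cos_le_one _)
  have key : ∀ t : ℝ, ∫ z : ℂ, gw z * cov ν (w - (t : ℂ) * z) ^ 2 =
      ∫ p : ℝ × ℝ, (∫ z : ℂ, gw z * (Real.cos (ph w t p.1 z) * Real.cos (ph w t p.2 z)))
        ∂(ν.prod ν) := by
    intro t
    rw [integral_integral_swap (hF t)]
    refine integral_congr_ae (Eventually.of_forall fun z => ?_)
    show gw z * cov ν (w - (t : ℂ) * z) ^ 2 =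
      ∫ p : ℝ × ℝ, gw z * (Real.cos (ph w t p.1 z) * Real.cos (ph w t p.2 z)) ∂(ν.prod ν)
    rw [integral_const_mul, integral_prod_mul (fun α => Real.cos (ph w t α z))
      (fun α => Real.cos (ph w t α z)), ← sq]
    rfl
  rw [show (fun t : ℝ => ∫ z : ℂ, gw z * cov ν (w - (t : ℂ) * z) ^ 2) = fun t : ℝ =>
      ∫ p : ℝ × ℝ, (∫ z : ℂ, gw z * (Real.cos (ph w t p.1 z) * Real.cos (ph w t p.2 z)))
        ∂(ν.prod ν) from funext key]
  have h0 : Tendsto (fun t : ℝ =>
      ∫ p : ℝ × ℝ, (∫ z : ℂ, gw z * (Real.cos (ph w t p.1 z) * Real.cos (ph w t p.2 z)))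
        ∂(ν.prod ν)) atTop (𝓝 (∫ p : ℝ × ℝ, (0 : ℝ) ∂(ν.prod ν))) := by
    refine tendsto_integral_filter_of_dominated_convergence (fun _ => (1 : ℝ))
      (Eventually.of_forall fun t => (hF t).integral_prod_left.aestronglyMeasurable)
      (Eventually.of_forall fun t => Eventually.of_forall fun p => ?_) (integrable_const _) ?_
    · rw [← gw_int.2]
      refine norm_integral_le_of_norm_le gw_int.1 (Eventually.of_forall fun z => ?_)
      rw [norm_mul, Real.norm_eq_abs, abs_of_nonneg (gw_nonneg _)]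
      refine mul_le_of_le_one_right (gw_nonneg _) ?_
      rw [norm_mul]
      exact mul_le_one₀ (Real.abs_cos_le_one _) (norm_nonneg _) (Real.abs_cos_le_one _)
    · have h1 : (ν.prod ν) {p : ℝ × ℝ | Real.sin (p.1 - p.2) = 0} = 0 := by
        have := hp
        unfold parallel at this
        rwa [measureReal_eq_zero_iff] at this
      have h2 : ∀ᵐ p ∂(ν.prod ν), ¬ Real.sin (p.1 - p.2) = 0 := by
        rw [ae_iff]
        simpa using h1
      filter_upwards [h2] with p hp
      exact kk_tendsto w hp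
  rwa [integral_zero] at h0

end

end Pool.Agent.Helper83.Er
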